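import Pool.Agent.Helper82.CN.St

/-!
# CN: TMB, the terms of the second moment
-/

set_option autoImplicit false

namespace Pool.Agent.Helper18.CN

open Finset Filter Pool.Agent.Helper82.CN

private lemma le_log_fact_TMB (M : ℕ) :
    (M : ℝ) * Real.log M - M ≤ Real.log (M.factorial : ℝ) := by
  rcases Nat.eq_zero_or_pos M with rfl | h
  · simp
  · have hM : (0 : ℝ) < M := by exact_mod_cast h
    have h1 := Real.pow_div_factorial_le_exp (x := (M : ℝ)) hM.le M
    have h2 : (0 : ℝ) < (M.factorial : ℝ) := by exact_mod_cast M.factorial_pos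
    rw [div_le_iff₀ h2] at h1
    have h3 := Real.log_le_log (by positivity) h1
    rw [Real.log_pow, Real.log_mul (Real.exp_pos _).ne' h2.ne', Real.log_exp] at h3
    linarith

private lemma log_fact_le_TMB (M : ℕ) :
    Real.log (M.factorial : ℝ) ≤ 1 + Real.log M + M * Real.log M - M := by
  rcases Nat.eq_zero_or_pos M with rfl | h
  · simp
  · induction M, h using Nat.le_induction with
    | base => simp
    | succ M h ih =>
      have hM : (0 : ℝ) < M := by exact_mod_cast h
      have hM1 : (0 : ℝ) < (M : ℝ) + 1 := by positivity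
      have h2 : (0 : ℝ) < (M.factorial : ℝ) := by exact_mod_cast M.factorial_pos
      rw [Nat.factorial_succ]
      push_cast
      rw [Real.log_mul hM1.ne' h2.ne']
      have h3 : Real.log ((M : ℝ) / (M + 1)) ≤ (M : ℝ) / (M + 1) - 1 :=
        Real.log_le_sub_one_of_pos (by positivity)
      rw [Real.log_div hM.ne' hM1.ne'] at h3
      have h4 : (M : ℝ) / (M + 1) - 1 = -1 / (M + 1) := by field_simp; ring
      rw [h4] at h3
      have h5 : ((M : ℝ) + 1) * (Real.log M - Real.log (M + 1)) ≤ ((M : ℝ) + 1) * (-1 / (M + 1)) :=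
        mul_le_mul_of_nonneg_left h3 hM1.le
      have h6 : ((M : ℝ) + 1) * (-1 / (M + 1)) = -1 := by field_simp
      rw [h6] at h5
      have h7 : ((M : ℝ) + 1) * (Real.log M - Real.log (M + 1)) =
        Real.log M + M * Real.log M - (Real.log (M + 1) + M * Real.log (M + 1)) := by ring
      have h8 : ((M : ℝ) + 1) * Real.log (M + 1) =
        Real.log (M + 1) + M * Real.log (M + 1) := by ring
      rw [h8]
      linarith

private lemma head_TMB (n s : ℕ) (hn : 1 ≤ n) (hs : s ≤ n) :
    ((n - s).factorial : ℝ) / (n.factorial : ℝ) ≤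
      Real.exp (1 + Real.log n + (s : ℝ) ^ 2 / n - s * Real.log n) := by
  have h1 : (0 : ℝ) < ((n - s).factorial : ℝ) := by exact_mod_cast Nat.factorial_pos _
  have h2 : (0 : ℝ) < (n.factorial : ℝ) := by exact_mod_cast Nat.factorial_pos _
  rw [← Real.log_le_iff_le_exp (by positivity), Real.log_div h1.ne' h2.ne']
  have h3 := log_fact_le_TMB (n - s)
  have h4 := le_log_fact_TMB n
  have hn1 : (1 : ℝ) ≤ n := by exact_mod_cast hn
  have hn0 : (0 : ℝ) < n := by linarith
  have hM : ((n - s : ℕ) : ℝ) = n - s := by push_cast [Nat.cast_sub hs]; ring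
  have h5 : Real.log ((n - s : ℕ) : ℝ) ≤ Real.log n ∧
      ((n - s : ℕ) : ℝ) * (Real.log ((n - s : ℕ) : ℝ) - Real.log n) ≤
        ((n - s : ℕ) : ℝ) * (-((s : ℝ) / n)) := by
    rcases Nat.eq_zero_or_pos (n - s) with h | h
    · rw [h]
      simp only [Nat.cast_zero, Real.log_zero, zero_mul, le_refl, and_true]
      exact Real.log_nonneg hn1
    · have h6 : (0 : ℝ) < ((n - s : ℕ) : ℝ) := by exact_mod_cast h
      have h7 : ((n - s : ℕ) : ℝ) ≤ n := by exact_mod_cast Nat.sub_le n s
      refine ⟨Real.log_le_log h6 h7, mul_le_mul_of_nonneg_left ?_ h6.le⟩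
      rw [← Real.log_div h6.ne' hn0.ne']
      refine (Real.log_le_sub_one_of_pos (by positivity)).trans (le_of_eq ?_)
      rw [hM]
      field_simp
      ring
  obtain ⟨h6, h7⟩ := h5
  rw [hM] at h3 h7 h6
  have h8 : ((n : ℝ) - s) * (-((s : ℝ) / n)) = -s + (s : ℝ) ^ 2 / n := by
    field_simp
    ring
  rw [h8] at h7
  have h9 : ((n : ℝ) - s) * (Real.log (n - s) - Real.log n) =
    (n - s) * Real.log (n - s) - n * Real.log n + s * Real.log n := by ring
  rw [h9] at h7
  rw [← hM] at h3 h7 h6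
  linarith

private lemma blk_TMB (lam δ y W T : ℝ) (v m : ℕ) (hy : 0 < y) (hlam : 0 ≤ lam) (hW : 0 ≤ W)
    (hWT : W ≤ T) (h1 : Real.log y - v * lam - (1 - δ) * lam + 1 ≤ -W)
    (h2 : Real.log y - v * lam ≤ 2 * lam) :
    y ^ m / (m.factorial : ℝ) * Real.exp (-(v * m * lam)) ≤
      Real.exp (-(W * m) + Real.exp ((1 - δ) * lam) * (2 * lam + 1 + T)) := by
  have hf : (0 : ℝ) < (m.factorial : ℝ) := by exact_mod_cast m.factorial_pos
  have hT : 0 ≤ T := hW.trans hWT
  have hb : y ^ m / (m.factorial : ℝ) * Real.exp (-(v * m * lam)) ≤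
      Real.exp (m * (Real.log y - v * lam - Real.log m + 1)) := by
    rw [← Real.log_le_iff_le_exp (by positivity), Real.log_mul (by positivity) (Real.exp_pos _).ne',
      Real.log_div (by positivity) hf.ne', Real.log_pow, Real.log_exp]
    have h3 := le_log_fact_TMB m
    have h4 : (m : ℝ) * (Real.log y - v * lam - Real.log m + 1) =
      m * Real.log y - (v * m * lam) - (m * Real.log m - m) := by ring
    rw [h4]
    linarith
  refine hb.trans (Real.exp_le_exp.2 ?_)
  have hE : 0 ≤ Real.exp ((1 - δ) * lam) * (2 * lam + 1 + T) := by positivity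
  rcases Nat.eq_zero_or_pos m with rfl | hm
  · simpa using hE
  have hm0 : (1 : ℝ) ≤ m := by exact_mod_cast hm
  by_cases h : Real.exp ((1 - δ) * lam) ≤ m
  · have h3 : (1 - δ) * lam ≤ Real.log m := by
      rw [Real.le_log_iff_exp_le (by linarith)]
      exact h
    have h4 : (m : ℝ) * (Real.log y - v * lam - Real.log m + 1) ≤ m * (-W) :=
      mul_le_mul_of_nonneg_left (by linarith) (by positivity)
    linarith
  · push Not at h
    have h3 : 0 ≤ Real.log m := Real.log_nonneg hm0
    have h4 : (m : ℝ) * (Real.log y - v * lam - Real.log m + 1) ≤ m * (2 * lam + 1) :=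
      mul_le_mul_of_nonneg_left (by linarith) (by positivity)
    have h5 : (m : ℝ) * (2 * lam + 1) ≤ Real.exp ((1 - δ) * lam) * (2 * lam + 1) :=
      mul_le_mul_of_nonneg_right h.le (by positivity)
    have h6 : W * m ≤ T * Real.exp ((1 - δ) * lam) :=
      mul_le_mul hWT h.le (by positivity) hT
    linarith

private lemma fin_TMB (σ z φ c e t : ℝ) (hσ0 : 0 ≤ σ) (hσ1 : σ ≤ 1) (hz : z ≤ σ)
    (hz2 : z ≤ φ * (1 + 1 / t)) (hφ0 : 0 ≤ φ) (hφ1 : φ ≤ 1) (hc0 : 0 < c) (hc1 : c ≤ 1)
    (ht : 0 < t) (hte : 1 / t ≤ e) :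
    σ ^ 2 - σ * (1 + c * φ + c * e) + c * z ≤ 0 := by
  have ht' : 0 < 1 / t := by positivity
  have key : z - φ * σ ≤ σ * (1 - σ) + σ * (1 / t) := by
    rcases le_or_gt σ (φ * (1 + 1 / t)) with h | h
    · have h1 : σ ≤ φ + 1 / t := by nlinarith
      nlinarith
    · have h1 : φ ≤ σ := by nlinarith
      nlinarith [mul_nonneg (sub_nonneg.2 h1) (sub_nonneg.2 hσ1), mul_nonneg (sub_nonneg.2 h1) ht'.le]
  have h2 : c * (z - φ * σ) ≤ c * (σ * (1 - σ) + σ * (1 / t)) :=
    mul_le_mul_of_nonneg_left key hc0.le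
  have h3 : c * (σ * (1 - σ)) ≤ 1 * (σ * (1 - σ)) :=
    mul_le_mul_of_nonneg_right hc1 (mul_nonneg hσ0 (by linarith))
  have h4 : c * (σ * (1 / t)) ≤ c * (σ * e) :=
    mul_le_mul_of_nonneg_left (mul_le_mul_of_nonneg_left hte hσ0) hc0.le
  nlinarith

/-- the conditions on `lam = log n` -/
private lemma ev_TMB (c δ B : ℝ) (hc : 0 < c) (hδ : 0 < δ) :
    ∀ᶠ x : ℝ in atTop, 1 ≤ x ∧ 20 + 10 * Real.log x + 10 * Real.log (x / c) ≤ δ * x ∧
      0 ≤ Real.log x ∧ 0 ≤ Real.log (x / c) ∧
      x / c - Real.log (x / (2 * c)) / c + (1 - Real.log 2) / c + 1 ≤ x / c ∧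
      B ≤ x / c - Real.log (x / (2 * c)) / c + (1 - Real.log 2) / c + 1 ∧
      1 + x + (x / c) * (2 * x + 1 + 3 * (x / c)) ≤ Real.exp (δ / 2 * x) := by
  have hlog : ∀ η : ℝ, 0 < η → ∀ᶠ x : ℝ in atTop, Real.log x ≤ η * x := by
    intro η hη
    have h1 := Real.isLittleO_log_id_atTop.bound hη
    filter_upwards [h1, eventually_ge_atTop (1 : ℝ)] with x hx hx1
    rw [Real.norm_eq_abs, Real.norm_eq_abs, id, abs_of_nonneg (by linarith : (0 : ℝ) ≤ x)] at hx
    exact (le_abs_self _).trans hx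
  have hl0 : ∀ᶠ x : ℝ in atTop, Real.log 2 - Real.log c ≤ Real.log x :=
    Real.tendsto_log_atTop.eventually_ge_atTop _
  have hl1 : ∀ᶠ x : ℝ in atTop, 1 - Real.log 2 + c + Real.log (2 * c) ≤ Real.log x :=
    Real.tendsto_log_atTop.eventually_ge_atTop _
  have hl2 : ∀ᶠ x : ℝ in atTop, Real.log c ≤ Real.log x :=
    Real.tendsto_log_atTop.eventually_ge_atTop _
  set Q : ℝ := 1 + 1 + (2 + 1 + 3 / c) / c with hQ
  have hQ0 : 0 < Q := by positivity
  filter_upwards [eventually_ge_atTop (1 : ℝ), hlog (δ / 40) (by positivity),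
    eventually_ge_atTop (2 * (20 - 10 * Real.log c) / δ), hl1, hl2, hlog (1 / 2) (by norm_num),
    eventually_ge_atTop (2 * c * (|B| + |Real.log (2 * c)| / c + 1 / c * Real.log 2 )),
    eventually_ge_atTop (48 * Q / δ ^ 3)] with x h1 h2 h3 h4 h5 h6 h7 h8
  have hx0 : 0 < x := by linarith
  have e1 : Real.log (x / c) = Real.log x - Real.log c := Real.log_div hx0.ne' hc.ne'
  have e2 : Real.log (x / (2 * c)) = Real.log x - Real.log (2 * c) :=
    Real.log_div hx0.ne' (by positivity)
  have hlx : 0 ≤ Real.log x := Real.log_nonneg h1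
  refine ⟨h1, ?_, hlx, ?_, ?_, ?_, ?_⟩
  · rw [e1]
    rw [div_le_iff₀ hδ] at h3
    linarith
  · rw [e1]; linarith
  · rw [e2]
    have h9 : (1 - Real.log 2) / c + 1 ≤ (Real.log x - Real.log (2 * c)) / c := by
      rw [div_add_one hc.ne', div_le_div_iff_of_pos_right hc]
      linarith
    linarith
  · rw [e2]
    have h9 : Real.log x / c ≤ 1 / 2 * x / c := by
      rw [div_le_div_iff_of_pos_right hc]; exact h6
    have h10 : |B| + |Real.log (2 * c)| / c + 1 / c * Real.log 2 ≤ x / c / 2 := by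
      rw [div_div, le_div_iff₀ (by positivity)]
      linarith
    have h11 := le_abs_self B
    have h12 : -(|Real.log (2 * c)| / c) ≤ Real.log (2 * c) / c := by
      rw [← neg_div, div_le_div_iff_of_pos_right hc]
      exact neg_abs_le _
    have h13 : (0 : ℝ) < 1 / c := by positivity
    have h14 : (Real.log x - Real.log (2 * c)) / c = Real.log x / c - Real.log (2 * c) / c :=
      sub_div _ _ _
    have h15 : (1 - Real.log 2) / c = 1 / c - 1 / c * Real.log 2 := by ring
    have h16 : 1 / 2 * x / c = x / c / 2 := by ring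
    rw [h14, h15]
    rw [h16] at h9
    linarith
  · have h9 := Real.pow_div_factorial_le_exp (x := δ / 2 * x) (by positivity) 3
    refine le_trans ?_ h9
    have h10 : 1 + x + (x / c) * (2 * x + 1 + 3 * (x / c)) ≤ Q * x ^ 2 := by
      have h11 : 1 ≤ x ^ 2 := one_le_pow₀ h1
      have h12 : x ≤ x ^ 2 := by nlinarith
      have h13 : (x / c) * (2 * x + 1 + 3 * (x / c)) ≤ (2 + 1 + 3 / c) / c * x ^ 2 := by
        have h14 : (x / c) * (2 * x + 1 + 3 * (x / c)) =
          (2 * x ^ 2 + x + 3 / c * x ^ 2) / c := by ring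
        have h15 : (2 + 1 + 3 / c) / c * x ^ 2 = (2 * x ^ 2 + x ^ 2 + 3 / c * x ^ 2) / c := by ring
        rw [h14, h15, div_le_div_iff_of_pos_right hc]
        linarith
      rw [hQ, add_mul, add_mul, one_mul]
      linarith
    refine h10.trans ?_
    have h11 : (δ / 2 * x) ^ 3 / (Nat.factorial 3 : ℝ) = (δ ^ 3 * x / 48) * x ^ 2 := by
      rw [show Nat.factorial 3 = 6 from rfl]
      push_cast
      ring
    rw [h11]
    apply mul_le_mul_of_nonneg_right _ (by positivity)
    rw [div_le_iff₀ (by positivity)] at h8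
    linarith

/-- the claim for the cells with at most `t` common vertices -/
private lemma claim_TMB (p c ε lam A φ : ℝ) (n t v : ℕ) (hc0 : 0 < c) (hc1 : c ≤ 1)
    (hcβ : bb p = 2 * c) (hε : 0 < ε) (hε1 : ε ≤ 1) (_hlam : lam = Real.log n) (hlam1 : 1 ≤ lam)
    (hev : 20 + 10 * Real.log lam + 10 * Real.log (lam / c) ≤ ε / 20 * lam)
    (hll : 0 ≤ Real.log lam) (hlc : 0 ≤ Real.log (lam / c))
    (hφ0 : 0 ≤ φ) (hφ1 : φ ≤ 1) (htA : 1 + 1 / c + ε + φ ≤ A - t) (hAl : A ≤ lam / c)
    (hM : |hv p n t - (A - t) * lam| ≤ ε / 20 * lam)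
    (hH1 : v * (lam - v * bb p / 2 - Real.log v) ≤ hv p n v)
    (hH2 : t ≤ 2 * v → hv p n t + ((t : ℝ) - v) * (lam / 2 - 4 * Real.log lam) ≤ hv p n v)
    (hv2 : 2 ≤ v) (hvt : v ≤ t) :
    -(hv p n v) + 2 * Real.log ((t + 1).choose v : ℕ) + v * (1 + c * φ + c * (ε / 2)) ≤
      -(1 + ε / 20) * lam - 1 := by
  have hv2r : (2 : ℝ) ≤ v := by exact_mod_cast hv2
  have hvtr : (v : ℝ) ≤ t := by exact_mod_cast hvt
  have ht2 : (2 : ℝ) ≤ t := hv2r.trans hvtr
  have hic : 0 < 1 / c := by positivity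
  have ht1 : (t : ℝ) + 1 ≤ lam / c := by linarith
  have hlt : Real.log ((t : ℝ) + 1) ≤ Real.log (lam / c) := Real.log_le_log (by linarith) ht1
  have hlt0 : 0 ≤ Real.log ((t : ℝ) + 1) := Real.log_nonneg (by linarith)
  have hct : c * t ≤ lam := by
    have h1 : (t : ℝ) ≤ lam / c := by linarith
    rw [le_div_iff₀ hc0] at h1
    linarith
  have hchoose : ∀ w : ℕ, w ≤ t + 1 → Real.log ((t + 1).choose w : ℕ) ≤ w * Real.log ((t : ℝ) + 1) := by
    intro w hw
    have h1 : ((t + 1).choose w : ℝ) ≤ ((t : ℝ) + 1) ^ w := by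
      have h2 := Nat.choose_le_pow (t + 1) w
      have h3 : ((t + 1).choose w) ≤ (t + 1) ^ w := h2
      exact_mod_cast h3
    have h2 : (0 : ℝ) < ((t + 1).choose w : ℝ) := by exact_mod_cast Nat.choose_pos hw
    have h3 := Real.log_le_log h2 h1
    rwa [Real.log_pow] at h3
  set w0 : ℝ := 1 + c * φ + c * (ε / 2) with hw0
  have hcφ : c * φ ≤ 1 := mul_le_one₀ hc1 hφ0 hφ1
  have hcε : c * (ε / 2) ≤ 1 := mul_le_one₀ hc1 (by linarith) (by linarith)
  have hw3 : w0 ≤ 3 := by linarith
  have hel : ε / 20 * lam ≤ lam / 20 := by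
    have h1 : ε / 20 * lam ≤ 1 / 20 * lam := mul_le_mul_of_nonneg_right (by linarith) (by linarith)
    linarith
  rcases Nat.lt_or_ge t (2 * v) with h | h
  · -- large cells
    have h1 := hH2 h.le
    have h2 : Real.log ((t + 1).choose v : ℕ) ≤ ((t : ℝ) - v + 1) * Real.log ((t : ℝ) + 1) := by
      have h3 := hchoose (t + 1 - v) (Nat.sub_le _ _)
      rw [Nat.choose_symm (by omega)] at h3
      have h4 : ((t + 1 - v : ℕ) : ℝ) = (t : ℝ) - v + 1 := by
        rw [Nat.cast_sub (by omega)]
        push_cast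
        ring
      rwa [h4] at h3
    have h3 := (abs_le.1 hM).1
    have h4 : (1 + 1 / c + ε + φ) * lam ≤ (A - t) * lam :=
      mul_le_mul_of_nonneg_right htA (by linarith)
    have h5 : v * w0 ≤ lam / c * w0 := by
      apply mul_le_mul_of_nonneg_right (by linarith)
      rw [hw0]; positivity
    have h6 : lam / c * w0 = (1 / c + φ + ε / 2) * lam := by
      rw [hw0]; field_simp
    have h7 : 0 ≤ ((t : ℝ) - v) * (lam / 2 - 4 * Real.log lam - 2 * Real.log ((t : ℝ) + 1)) := by
      apply mul_nonneg (by linarith)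
      linarith
    have h8 : 20 + 10 * Real.log (lam / c) ≤ ε / 20 * lam := by linarith
    have h9 : ((t : ℝ) - v + 1) * Real.log ((t : ℝ) + 1) =
      ((t : ℝ) - v) * Real.log ((t : ℝ) + 1) + Real.log ((t : ℝ) + 1) := by ring
    have h10 : ((t : ℝ) - v) * (lam / 2 - 4 * Real.log lam - 2 * Real.log ((t : ℝ) + 1)) =
      ((t : ℝ) - v) * (lam / 2 - 4 * Real.log lam) -
        2 * (((t : ℝ) - v) * Real.log ((t : ℝ) + 1)) := by ring
    rw [h9] at h2
    rw [h10] at h7
    linarith
  · -- small cells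
    have h2 := hchoose v (by omega)
    have h3 : Real.log v ≤ Real.log ((t : ℝ) + 1) := Real.log_le_log (by linarith) (by linarith)
    have h4 : v * w0 ≤ v * 3 := mul_le_mul_of_nonneg_left hw3 (by linarith)
    have h5 : (v : ℝ) * (lam - v * bb p / 2 - Real.log v) =
      v * (lam - c * v - Real.log v) := by rw [hcβ]; ring
    rw [h5] at hH1
    have h6 : (v : ℝ) * Real.log v ≤ v * Real.log ((t : ℝ) + 1) :=
      mul_le_mul_of_nonneg_left h3 (by linarith)
    have h7 : (v : ℝ) * Real.log ((t : ℝ) + 1) ≤ v * Real.log (lam / c) :=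
      mul_le_mul_of_nonneg_left hlt (by linarith)
    -- it suffices: v (lam - c v - 3 log(lam/c) - 3) ≥ (1 + ε/20) lam + 1
    have h8 : (1 + ε / 20) * lam + 1 ≤ v * (lam - c * v - 3 * Real.log (lam / c) - 3) := by
      rcases Nat.lt_or_ge v 3 with h9 | h9
      · have h10 : v = 2 := by omega
        rw [h10]
        push_cast
        linarith
      · have h9r : (3 : ℝ) ≤ v := by exact_mod_cast h9
        have h10 : c * v ≤ lam / 2 := by
          have h11 : (2 : ℝ) * v ≤ t := by exact_mod_cast h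
          have h12 : c * (2 * v) ≤ c * t := mul_le_mul_of_nonneg_left h11 hc0.le
          linarith
        have h12 : 0 ≤ lam / 2 - 3 * Real.log (lam / c) - 3 := by linarith
        have h13 : 3 * (lam / 2 - 3 * Real.log (lam / c) - 3) ≤
            v * (lam - c * v - 3 * Real.log (lam / c) - 3) :=
          mul_le_mul h9r (by linarith) h12 (by linarith)
        linarith
    have h9 : (v : ℝ) * (lam - c * v - 3 * Real.log (lam / c) - 3) =
      v * (lam - c * v) - 3 * (v * Real.log (lam / c)) - v * 3 := by ring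
    have h10 : (v : ℝ) * (lam - c * v - Real.log v) = v * (lam - c * v) - v * Real.log v := by ring
    rw [h10] at hH1
    rw [h9] at h8
    linarith

theorem tTMB : StMkb → StHvb → StTmb := by
  intro hMkb hHvb p ε hp hp2 hε hε1
  have he2 : 0 < 1 / Real.exp 2 := by positivity
  have hp1 : p < 1 := by linarith
  have h1p : 0 < 1 - p := by linarith
  set c : ℝ := bb p / 2 with hc
  have hcβ : bb p = 2 * c := by rw [hc]; ring
  have hc0 : 0 < c := by
    have h1 : 0 < bb p := by
      rw [bb]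
      apply Real.log_pos
      rw [lt_div_iff₀ h1p]
      linarith
    rw [hc]; linarith
  have hc1 : c ≤ 1 := by
    have h1 : bb p ≤ 2 := by
      rw [bb, Real.log_le_iff_le_exp (by positivity), div_le_iff₀ h1p]
      have h2 : 1 / Real.exp 2 ≤ 1 - p := by linarith
      rw [div_le_iff₀ (Real.exp_pos _)] at h2
      linarith
    rw [hc]; linarith
  have hic : 0 < 1 / c := by positivity
  obtain ⟨n1, hn1⟩ := hMkb p (6 + 1 / c) (ε / 20) hp hp1 (by positivity) (by positivity)
  obtain ⟨n2, hn2⟩ := hHvb p (6 + 1 / c) hp hp1 (by positivity)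
  obtain ⟨x0, hx0⟩ := eventually_atTop.1
    (ev_TMB c (ε / 20) (8 + 1 / c + 2 / ε) hc0 (by positivity))
  refine ⟨ε / 40, by positivity, by linarith, max (max n1 n2) (⌈Real.exp x0⌉₊ + 1), ?_⟩
  intro n k m hn hk hlo hup hs hmr
  have hn1' : n1 ≤ n := ((le_max_left _ _).trans (le_max_left _ _)).trans hn
  have hn2' : n2 ≤ n := ((le_max_right _ _).trans (le_max_left _ _)).trans hn
  have hn3 : ⌈Real.exp x0⌉₊ + 1 ≤ n := (le_max_right _ _).trans hn
  have hnpos : 1 ≤ n := by omega
  have hn0 : (0 : ℝ) < n := by exact_mod_cast hnpos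
  obtain ⟨lam, hlam⟩ : ∃ lam : ℝ, lam = Real.log n := ⟨_, rfl⟩
  have hxl : x0 ≤ lam := by
    rw [hlam, Real.le_log_iff_exp_le hn0]
    refine (Nat.le_ceil _).trans ?_
    exact_mod_cast (by omega : ⌈Real.exp x0⌉₊ ≤ n)
  obtain ⟨hl1, hev, hll, hlc, hA1, hA2, hexp⟩ := hx0 lam hxl
  obtain ⟨A, hA⟩ : ∃ A : ℝ, A = al p n := ⟨_, rfl⟩
  have hA' : A = lam / c - Real.log (lam / (2 * c)) / c + (1 - Real.log 2) / c + 1 := by
    rw [hA, al, ← hlam, hcβ]
    field_simp
  rw [← hA'] at hA1 hA2
  have hga : ga p n = A - 1 - 1 / c := by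
    rw [ga, ← hA, hcβ]
    congr 1
    field_simp
  rw [hga] at hlo hup
  obtain ⟨t, ht⟩ : ∃ t : ℕ, t = n / k := ⟨_, rfl⟩
  obtain ⟨r, hr⟩ : ∃ r : ℕ, r = n % k := ⟨_, rfl⟩
  obtain ⟨φ, hφ⟩ : ∃ φ : ℝ, φ = (r : ℝ) / k := ⟨_, rfl⟩
  have hk0 : (0 : ℝ) < k := by exact_mod_cast hk
  have hnk : k * t + r = n := by rw [ht, hr]; exact Nat.div_add_mod n k
  have hnkr : (n : ℝ) = k * t + r := by rw [← hnk]; push_cast; ring
  have hφn : (n : ℝ) / k = t + φ := by
    rw [hφ, hnkr]; field_simp
  have hrk : r < k := by rw [hr]; exact Nat.mod_lt _ (by omega)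
  have hφ0 : 0 ≤ φ := by rw [hφ]; positivity
  have hφ1 : φ ≤ 1 := by
    rw [hφ, div_le_one hk0]; exact_mod_cast hrk.le
  rw [hφn] at hlo hup
  have hrφ : (r : ℝ) = k * φ := by rw [hφ]; field_simp
  have htε : 2 / ε ≤ t := by linarith
  have ht0 : (0 : ℝ) < t := lt_of_lt_of_le (by positivity) htε
  have ht2 : (2 : ℝ) ≤ t := by
    refine le_trans ?_ htε
    rw [le_div_iff₀ hε]; linarith
  have ht1c : (t : ℝ) + 1 ≤ lam / c := by linarith
  have hct : c * (t + 1) ≤ lam := by
    rw [le_div_iff₀ hc0] at ht1c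
    linarith
  have hkn : k ≤ n := by
    by_contra h
    push Not at h
    have : n / k = 0 := Nat.div_eq_of_lt h
    rw [ht, this] at ht0
    simp at ht0
  have hlk : Real.log k ≤ lam := by
    rw [hlam]
    exact Real.log_le_log hk0 (by exact_mod_cast hkn)
  rw [← ht, ← hr] at hmr
  rw [← ht] at hs
  have hMt := hn1 n t hn1' (by rw [← hA, abs_le]; constructor <;> linarith)
  have hMt1 := hn1 n (t + 1) hn1' (by rw [← hA, abs_le]; push_cast; constructor <;> linarith)
  have hHv := fun v => hn2 n t v hn2' (by rw [← hA, abs_le]; constructor <;> linarith)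
  rw [← hA, ← hlam] at hMt hMt1
  set w0 : ℝ := 1 + c * φ + c * (ε / 2) with hw0
  have hcφ : c * φ ≤ 1 := mul_le_one₀ hc1 hφ0 hφ1
  have hcφ0 : 0 ≤ c * φ := by positivity
  have hcε : c * (ε / 2) ≤ 1 := mul_le_one₀ hc1 (by linarith) (by linarith)
  have hel : ε / 20 * lam ≤ lam / 20 := by
    have h1 : ε / 20 * lam ≤ 1 / 20 * lam := mul_le_mul_of_nonneg_right (by linarith) (by linarith)
    linarith
  have hcε0 : 0 < c * (ε / 2) := by positivity
  have hw3 : w0 ≤ 3 := by linarith
  have hw1 : 1 ≤ w0 := by linarith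
  have hclaim : ∀ v : ℕ, 2 ≤ v → v ≤ t →
      -(hv p n v) + 2 * Real.log ((t + 1).choose v : ℕ) + v * w0 ≤ -(1 + ε / 20) * lam - 1 := by
    intro v hv2 hvt
    have h1 := hHv v (by omega) hvt
    rw [← hlam] at h1
    exact claim_TMB p c ε lam A φ n t v hc0 hc1 hcβ hε hε1 hlam hl1 hev hll hlc hφ0 hφ1
      (by linarith) hA1 hMt h1.1 h1.2 hv2 hvt
  set W : ℕ → ℝ := fun v => v * w0 - if v = t + 1 then c * (t + 1) else 0 with hW
  set E : ℝ := Real.exp ((1 - ε / 20) * lam) * (2 * lam + 1 + 3 * (lam / c)) with hE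
  have hE0 : 0 ≤ E := by rw [hE]; positivity
  have hlb : (0 : ℝ) < 1 / (1 - p) := by positivity
  -- the factors
  have hfac : ∀ v ∈ Icc 2 (t + 1), Yv p n k v ^ m v / ((m v).factorial : ℝ) *
      Real.exp (-(v * m v * lam)) ≤ Real.exp (-(W v * m v) + E) := by
    intro v hvI
    rw [mem_Icc] at hvI
    rcases Nat.lt_or_ge t v with h | h
    · -- v = t + 1
      have hvt : v = t + 1 := by omega
      subst hvt
      rcases Nat.eq_zero_or_pos (m (t + 1)) with h0 | h0
      · rw [h0]
        simp only [pow_zero, Nat.factorial_zero, Nat.cast_one, div_one, Nat.cast_zero, mul_zero,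
          zero_mul, neg_zero, Real.exp_zero, mul_one, zero_add]
        exact Real.one_le_exp hE0
      · have hr0 : 0 < r := lt_of_lt_of_le h0 hmr
        have hr0r : (0 : ℝ) < r := by exact_mod_cast hr0
        have hf : (0 : ℝ) < ((t + 1).factorial : ℝ) := by exact_mod_cast Nat.factorial_pos _
        have hY : Yv p n k (t + 1) = (r : ℝ) ^ 2 * ((t + 1).factorial : ℝ) *
            (1 / (1 - p)) ^ ((t + 1).choose 2) := by
          rw [Yv, ← ht, ← hr, if_neg (by omega)]
        have hYpos : 0 < Yv p n k (t + 1) := by rw [hY]; positivity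
        have hlr : Real.log r ≤ lam := by
          rw [hlam]
          refine Real.log_le_log hr0r ?_
          exact_mod_cast (by omega : r ≤ n)
        have hlY : Real.log (Yv p n k (t + 1)) - ((t + 1 : ℕ) : ℝ) * lam =
            2 * Real.log r - hv p n (t + 1) := by
          rw [hY, Real.log_mul (by positivity) (by positivity),
            Real.log_mul (by positivity) hf.ne', Real.log_pow, Real.log_pow, hv, ← hlam, bb]
          push_cast
          ring
        have hW1 : W (t + 1) = ((t : ℝ) + 1) * (w0 - c) := by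
          rw [hW]
          simp only [if_true]
          push_cast
          ring
        have hM1 := (abs_le.1 hMt1).1
        push_cast at hM1
        have h4 : (1 / c + ε + φ) * lam ≤ (A - (t + 1)) * lam :=
          mul_le_mul_of_nonneg_right (by linarith) (by linarith)
        refine blk_TMB lam (ε / 20) (Yv p n k (t + 1)) (W (t + 1)) (3 * (lam / c)) (t + 1) _ hYpos
          (by linarith) ?_ ?_ ?_ ?_
        · rw [hW1]
          exact mul_nonneg (by positivity) (by linarith)
        · rw [hW1]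
          have h5 : ((t : ℝ) + 1) * (w0 - c) ≤ (lam / c) * 3 :=
            mul_le_mul ht1c (by linarith) (by linarith) (by positivity)
          linarith
        · rw [hlY, hW1]
          have h5 : 2 * Real.log r - hv p n (t + 1) - (1 - ε / 20) * lam + 1 ≤
              lam * (1 - 1 / c - ε - φ + 3 * (ε / 20)) := by linarith
          have h6 : 1 - 1 / c - ε - φ + 3 * (ε / 20) ≤ 0 := by
            have h7 : 1 ≤ 1 / c := by rw [le_div_iff₀ hc0]; linarith
            linarith
          have h7 : lam * (1 - 1 / c - ε - φ + 3 * (ε / 20)) ≤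
              (c * (t + 1)) * (1 - 1 / c - ε - φ + 3 * (ε / 20)) :=
            mul_le_mul_of_nonpos_right hct h6
          have h8 : (c * ((t : ℝ) + 1)) * (1 - 1 / c - ε - φ + 3 * (ε / 20)) =
              (t + 1) * (c - 1 - c * ε - c * φ + 3 * c * (ε / 20)) := by
            field_simp
          have h9 : ((t : ℝ) + 1) * (c - 1 - c * ε - c * φ + 3 * c * (ε / 20)) ≤
              (t + 1) * (-(w0 - c)) := by
            apply mul_le_mul_of_nonneg_left _ (by positivity)
            rw [hw0]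
            have h10 : 0 ≤ c * ε := by positivity
            linarith
          linarith
        · rw [hlY]
          have h5 : 0 ≤ hv p n (t + 1) := by
            have h6 : 0 ≤ (1 / c + ε + φ - ε / 20) * lam := by
              apply mul_nonneg _ (by linarith)
              linarith
            linarith
          linarith
    · -- v ≤ t
      have hcl := hclaim v hvI.1 h
      have hWv : W v = v * w0 := by
        rw [hW]
        simp only
        rw [if_neg (by omega), sub_zero]
      have hvr : (v : ℝ) ≤ t := by exact_mod_cast h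
      have hvr2 : (2 : ℝ) ≤ v := by exact_mod_cast hvI.1
      have hf : (0 : ℝ) < (v.factorial : ℝ) := by exact_mod_cast Nat.factorial_pos _
      have hch : (0 : ℝ) < ((t + 1).choose v : ℝ) := by exact_mod_cast Nat.choose_pos (by omega)
      have hY : Yv p n k v = (k : ℝ) ^ 2 * ((t + 1).choose v : ℝ) ^ 2 * (v.factorial : ℝ) *
          (1 / (1 - p)) ^ (v.choose 2) := by
        rw [Yv, ← ht, if_pos h]
      have hYpos : 0 < Yv p n k v := by rw [hY]; positivity
      have hlY : Real.log (Yv p n k v) - (v : ℝ) * lam =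
          2 * Real.log k + 2 * Real.log ((t + 1).choose v : ℕ) - hv p n v := by
        rw [hY, Real.log_mul (by positivity) (by positivity),
          Real.log_mul (by positivity) hf.ne', Real.log_mul (by positivity) (by positivity),
          Real.log_pow, Real.log_pow, Real.log_pow, hv, ← hlam, bb]
        push_cast
        ring
      have hvw : 0 ≤ (v : ℝ) * w0 := by positivity
      have hεl : 0 ≤ ε / 20 * lam := by positivity
      refine blk_TMB lam (ε / 20) (Yv p n k v) (W v) (3 * (lam / c)) v _ hYpos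
        (by linarith) ?_ ?_ ?_ ?_
      · rw [hWv]; exact hvw
      · rw [hWv]
        have h5 : (v : ℝ) * w0 ≤ (lam / c) * 3 :=
          mul_le_mul (by linarith) hw3 (by linarith) (by positivity)
        linarith
      · rw [hlY, hWv]
        linarith
      · rw [hlY]
        linarith
  -- the product
  obtain ⟨s, hs'⟩ : ∃ s : ℕ, s = ∑ v ∈ Icc 2 (t + 1), v * m v := ⟨_, rfl⟩
  have hsr : (s : ℝ) = ∑ v ∈ Icc 2 (t + 1), (v : ℝ) * m v := by
    rw [hs']; push_cast; rfl
  have hprod : ∏ v ∈ Icc 2 (t + 1), Yv p n k v ^ m v / ((m v).factorial : ℝ) ≤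
      Real.exp (s * lam) * Real.exp (∑ v ∈ Icc 2 (t + 1), (-(W v * m v) + E)) := by
    have h1 : ∏ v ∈ Icc 2 (t + 1), Yv p n k v ^ m v / ((m v).factorial : ℝ) =
        Real.exp (s * lam) * ∏ v ∈ Icc 2 (t + 1), (Yv p n k v ^ m v / ((m v).factorial : ℝ) *
          Real.exp (-(v * m v * lam))) := by
      rw [prod_mul_distrib, ← Real.exp_sum, sum_neg_distrib, ← sum_mul, ← hsr]
      have h2 : Real.exp (s * lam) * Real.exp (-(s * lam)) = 1 := by
        rw [← Real.exp_add]; simp
      calc _ = (Real.exp (s * lam) * Real.exp (-(s * lam))) *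
            ∏ v ∈ Icc 2 (t + 1), Yv p n k v ^ m v / ((m v).factorial : ℝ) := by
            rw [h2, one_mul]
        _ = _ := by ring
    rw [h1, Real.exp_sum]
    apply mul_le_mul_of_nonneg_left _ (Real.exp_pos _).le
    apply prod_le_prod _ hfac
    intro v _
    have : 0 ≤ Yv p n k v := by
      rw [Yv]
      split_ifs <;> positivity
    positivity
  have hhead := head_TMB n s hnpos (by rw [hs']; exact hs)
  rw [← hlam] at hhead
  have hTm : Tm p n k m ≤ Real.exp (1 + lam + (s : ℝ) ^ 2 / n - s * lam) *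
      (Real.exp (s * lam) * Real.exp (∑ v ∈ Icc 2 (t + 1), (-(W v * m v) + E))) := by
    rw [Tm, ← ht, ← hs']
    apply mul_le_mul hhead hprod _ (Real.exp_pos _).le
    apply prod_nonneg
    intro v _
    have : 0 ≤ Yv p n k v := by
      rw [Yv]
      split_ifs <;> positivity
    positivity
  rw [← Real.exp_add, ← Real.exp_add] at hTm
  refine hTm.trans ?_
  have hrpow : (n : ℝ) ^ (1 - ε / 40) = Real.exp ((1 - ε / 40) * lam) := by
    rw [Real.rpow_def_of_pos hn0, hlam, mul_comm]
  rw [hrpow]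
  apply Real.exp_le_exp.2
  -- the sum
  have hsumW : ∑ v ∈ Icc 2 (t + 1), (-(W v * m v) + E) =
      -(s * w0) + c * (t + 1) * m (t + 1) + t * E := by
    rw [sum_add_distrib, sum_const, Nat.card_Icc, nsmul_eq_mul]
    have h1 : ((t + 1 + 1 - 2 : ℕ) : ℝ) = t := by
      have : t + 1 + 1 - 2 = t := by omega
      rw [this]
    rw [h1]
    congr 1
    have h2 : ∀ v ∈ Icc 2 (t + 1), -(W v * (m v : ℝ)) =
        -(((v : ℝ) * m v) * w0) + if v = t + 1 then c * (t + 1) * m (t + 1) else 0 := by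
      intro v _
      rw [hW]
      simp only
      split_ifs with h
      · rw [h]; ring
      · ring
    have ht2' : 2 ≤ t + 1 := by
      have : 2 ≤ t := by exact_mod_cast ht2
      omega
    rw [sum_congr rfl h2, sum_add_distrib, sum_neg_distrib, ← sum_mul, ← hsr, sum_ite_eq',
      if_pos (by rw [mem_Icc]; omega)]
  rw [hsumW]
  have hsn : (s : ℝ) ≤ n := by rw [hs']; exact_mod_cast hs
  have hmz : ((t : ℝ) + 1) * m (t + 1) ≤ s := by
    rw [hsr]
    have ht2' : 2 ≤ t := by exact_mod_cast ht2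
    have h1 := single_le_sum (f := fun v : ℕ => (v : ℝ) * m v) (s := Icc 2 (t + 1))
      (fun i _ => by positivity) (show t + 1 ∈ Icc 2 (t + 1) by rw [mem_Icc]; omega)
    push_cast at h1
    exact h1
  have hmr' : (m (t + 1) : ℝ) ≤ r := by exact_mod_cast hmr
  have hfin := fin_TMB ((s : ℝ) / n) (((t : ℝ) + 1) * m (t + 1) / n) φ c (ε / 2) t
    (by positivity) (by rw [div_le_one hn0]; exact hsn)
    (by rw [div_le_div_iff_of_pos_right hn0]; exact hmz) ?_ hφ0 hφ1 hc0 hc1 ht0 ?_
  · have h1 : (n : ℝ) * (((s : ℝ) / n) ^ 2 - (s : ℝ) / n * (1 + c * φ + c * (ε / 2)) +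
        c * (((t : ℝ) + 1) * m (t + 1) / n)) =
        (s : ℝ) ^ 2 / n - s * w0 + c * (t + 1) * m (t + 1) := by
      rw [hw0]
      field_simp
    have h2 : (s : ℝ) ^ 2 / n - s * w0 + c * (t + 1) * m (t + 1) ≤ 0 := by
      rw [← h1]
      exact mul_nonpos_of_nonneg_of_nonpos hn0.le hfin
    have h3 : (t : ℝ) * E ≤ (lam / c) * E := mul_le_mul_of_nonneg_right (by linarith) hE0
    have h4 : 1 + lam + (lam / c) * E ≤ Real.exp ((1 - ε / 40) * lam) := by
      have h5 : Real.exp ((1 - ε / 40) * lam) =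
          Real.exp ((1 - ε / 20) * lam) * Real.exp (ε / 20 / 2 * lam) := by
        rw [← Real.exp_add]
        congr 1
        ring
      have h6 : 1 ≤ Real.exp ((1 - ε / 20) * lam) := Real.one_le_exp (by
        apply mul_nonneg _ (by linarith)
        linarith)
      rw [h5, hE]
      have h7 := mul_le_mul_of_nonneg_left hexp (Real.exp_pos ((1 - ε / 20) * lam)).le
      refine le_trans ?_ h7
      have h8 : 1 + lam ≤ Real.exp ((1 - ε / 20) * lam) * (1 + lam) :=
        le_mul_of_one_le_left (by linarith) h6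
      have h9 : Real.exp ((1 - ε / 20) * lam) *
          (1 + lam + (lam / c) * (2 * lam + 1 + 3 * (lam / c))) =
          Real.exp ((1 - ε / 20) * lam) * (1 + lam) + (lam / c) *
            (Real.exp ((1 - ε / 20) * lam) * (2 * lam + 1 + 3 * (lam / c))) := by ring
      rw [h9]
      linarith
    linarith
  · have h1 : ((t : ℝ) + 1) * m (t + 1) ≤ (t + 1) * r :=
      mul_le_mul_of_nonneg_left hmr' (by positivity)
    rw [div_le_iff₀ hn0]
    refine h1.trans ?_
    rw [hnkr, hrφ]
    have h2 : φ * (1 + 1 / t) * (k * t + k * φ) = (t + 1) * (k * φ) + φ * (1 + 1 / t) * (k * φ) := by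
      field_simp
    rw [h2]
    have : 0 ≤ φ * (1 + 1 / t) * (k * φ) := by positivity
    linarith
  · rw [div_le_iff₀ ht0]
    rw [div_le_iff₀ hε] at htε
    linarith

end Pool.Agent.Helper18.CN
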